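import Pool.Agent.H91.RegConv

set_option autoImplicit false

open H91.RegConv hiding G in
theorem Pool.Agent.Results.MP_b39683_an.NonRegular.result :
    ∃ (G : Type) (_ : Group G), ¬ Amenable G ∧ Proper (val (G := G)) :=
  main
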